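import Mathlib
import Pool.Agent.H304R4.CM.Explicit

set_option autoImplicit false

open Complex MeasureTheory Filter Topology Asymptotics

namespace Pool.Agent.Results.MP_74e98a_nt.FirstPowerSaving

/-- first power saving for the cubic moment of Hardy's function, with an explicit exponent -/
theorem result :
    (∃ Z : ℝ → ℝ, ∀ t : ℝ, (Z t : ℂ) = (Real.pi : ℂ) ^ (-(I * t / 2)) *
      (Complex.Gamma (1 / 4 + I * t / 2) / (‖Complex.Gamma (1 / 4 + I * t / 2)‖ : ℂ)) *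
      riemannZeta (1 / 2 + I * t)) ∧
    ∀ Z : ℝ → ℝ, (∀ t : ℝ, (Z t : ℂ) = (Real.pi : ℂ) ^ (-(I * t / 2)) *
      (Complex.Gamma (1 / 4 + I * t / 2) / (‖Complex.Gamma (1 / 4 + I * t / 2)‖ : ℂ)) *
      riemannZeta (1 / 2 + I * t)) →
      (fun T : ℝ => ∫ t in (0 : ℝ)..T, Z t ^ 3) =O[atTop]
        (fun T : ℝ => T ^ (1 - 1 / 64000000 : ℝ)) :=
  Pool.Agent.H304R4.CM.explicit_final

end Pool.Agent.Results.MP_74e98a_nt.FirstPowerSaving
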